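import Mathlib
import Pool.Agent.Helper51.LinMain

/-!
Lin's question on superpositions of algebraic functions: for every `n > 4` there is no entire
algebraic function `F` on `ℂ^n` which is a composition of polynomials and entire algebraic
functions in fewer than `n - 1` variables, has the same discriminant set as the universal
algebraic function `λ_n`, and has a joint branch with `λ_n`.
-/

namespace Pool.Agent.Results.MP_8eda11_ag.NoComposition

open Polynomial

/-- The polynomial `P_z = λ^n + z_1 λ^(n-1) + ... + z_n`; here `z_(i+1)` is `z i`, `i : Fin n`. -/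
noncomputable def lamPoly (n : ℕ) (z : Fin n → ℂ) : ℂ[X] :=
  X ^ n + ∑ i : Fin n, C (z i) * X ^ (n - 1 - (i : ℕ))

/-- The values at `z` of the universal `n`-valued algebraic function `λ_n`: the roots of `P_z`. -/
def lamValues (n : ℕ) (z : Fin n → ℂ) : Set ℂ := {w | (lamPoly n z).IsRoot w}

/-- The discriminant set `Σ_n` of `λ_n`. -/
def lamDiscrSet (n : ℕ) : Set (Fin n → ℂ) := {z | (lamPoly n z).discr = 0}

/-- An entire algebraic function of `m` variables, given by its monic equation of positive
degree in one unknown over `ℂ[z_1, ..., z_m]`. -/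
structure EntireAlg (m : ℕ) where
  /-- the equation -/
  eqn : (MvPolynomial (Fin m) ℂ)[X]
  /-- the equation is monic -/
  monic : eqn.Monic
  /-- the degree is positive -/
  pos : 0 < eqn.natDegree

/-- The equation specialised at the point `z`. -/
noncomputable def EntireAlg.eqnAt {m : ℕ} (F : EntireAlg m) (z : Fin m → ℂ) : ℂ[X] :=
  F.eqn.map (MvPolynomial.eval z)

/-- The values at `z`: the roots of the equation. -/
def EntireAlg.values {m : ℕ} (F : EntireAlg m) (z : Fin m → ℂ) : Set ℂ :=
  {w | (F.eqnAt z).IsRoot w}

/-- The zero set of the discriminant of the equation. For an equation without repeated factors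
this is the discriminant set of the function. -/
def EntireAlg.discrSet {m : ℕ} (F : EntireAlg m) : Set (Fin m → ℂ) :=
  {z | (F.eqnAt z).discr = 0}

/-- The multivalued functions on `ℂ^n` which are compositions of polynomials and entire algebraic
functions in fewer than `n - 1` variables: the smallest class of set-valued functions which
contains the coordinate functions and is closed under substituting members of the class into a
polynomial (in any number `k` of variables) and into an entire algebraic function of
`k < n - 1` variables, all branches (all choices of values) being taken. -/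
inductive IsComposition (n : ℕ) : ((Fin n → ℂ) → Set ℂ) → Prop
  | coord (i : Fin n) : IsComposition n (fun z => {z i})
  | poly {k : ℕ} (p : MvPolynomial (Fin k) ℂ) (G : Fin k → (Fin n → ℂ) → Set ℂ)
      (hG : ∀ j, IsComposition n (G j)) :
      IsComposition n (fun z => {w | ∃ f : Fin k → ℂ, (∀ j, f j ∈ G j z) ∧
        w = MvPolynomial.eval f p})
  | alg {k : ℕ} (hk : k < n - 1) (W : EntireAlg k) (G : Fin k → (Fin n → ℂ) → Set ℂ)
      (hG : ∀ j, IsComposition n (G j)) :
      IsComposition n (fun z => {w | ∃ f : Fin k → ℂ, (∀ j, f j ∈ G j z) ∧ w ∈ W.values f})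

/-- Two multivalued functions on `ℂ^n` have a common value at every point of some nonempty open
set. This is weaker than having a joint irreducible branch in some domain. -/
def HaveCommonBranch {n : ℕ} (F G : (Fin n → ℂ) → Set ℂ) : Prop :=
  ∃ U : Set (Fin n → ℂ), IsOpen U ∧ U.Nonempty ∧ ∀ z ∈ U, (F z ∩ G z).Nonempty

open Pool.Agent.Helper51.Lin in
theorem exists_tree {n : ℕ} {F : (Fin n → ℂ) → Set ℂ} (hF : IsComposition n F) :
    ∃ t : CTree n, ∀ z, t.vals z = F z := by
  induction hF with
  | coord i => exact ⟨.coord i, fun z => rfl⟩
  | @poly k p G hG ih =>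
    choose D hD using ih
    have hnd : (X - C p : (MvPolynomial (Fin k) ℂ)[X]).natDegree = 1 := natDegree_X_sub_C p
    refine ⟨.node k (X - C p) (monic_X_sub_C p) (by rw [hnd]; exact one_pos) (Or.inr hnd) D,
      fun z => ?_⟩
    ext w
    simp only [CTree.vals, hD, Set.mem_ofPred_eq]
    refine exists_congr fun f => and_congr_right fun _ => ?_
    simp only [Polynomial.map_sub, map_X, map_C, IsRoot.def, eval_sub, eval_X, eval_C]
    rw [sub_eq_zero]
    exact Iff.rfl
  | @alg k hk W G hG ih =>
    choose D hD using ih
    refine ⟨.node k W.eqn W.monic W.pos (Or.inl (by omega)) D, fun z => ?_⟩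
    ext w
    simp only [CTree.vals, hD, Set.mem_ofPred_eq]
    exact exists_congr fun f => and_congr_right fun _ => Iff.rfl

open Pool.Agent.Helper51.Lin in
/-- **Theorem.** For every `n > 4` there is no entire algebraic function `F` on `ℂ^n` such that
(1) `F` is a composition of polynomials and entire algebraic functions in fewer than `n - 1`
variables; (2) the discriminant set of `F` equals `Σ_n`; (3) `F` and `λ_n` have a joint branch. -/
theorem result : ∀ n : ℕ, 4 < n → ¬ ∃ F : EntireAlg n, Squarefree F.eqn ∧
    IsComposition n F.values ∧ F.discrSet = lamDiscrSet n ∧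
    HaveCommonBranch (lamValues n) F.values := by
  rintro n hn ⟨F, -, hcomp, hdisc, U, hU, hUne, hbr⟩
  have hnd : ∀ z : Fin n → ℂ, 0 < (univPoly n z).natDegree := by
    intro z
    rw [Pool.Agent.Helper69.LinA0.univPoly_natDegree]
    omega
  have hFd : ∀ z : Fin n → ℂ, 0 < (spec F.eqn z).natDegree := by
    intro z
    rw [natDegree_spec F.monic]
    exact F.pos
  have hsep : ∀ z : Fin n → ℂ, (univPoly n z).Separable → (spec F.eqn z).Separable := by
    intro z hz
    by_contra hcon
    have h1 : z ∈ F.discrSet := (discr_eq_zero_iff (hFd z)).2 hcon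
    rw [hdisc] at h1
    exact (discr_eq_zero_iff (hnd z)).1 h1 hz
  have hA := spec_eq_univPoly_of_branch hn F.eqn F.monic hsep U hU hUne (fun z hz => by
    obtain ⟨w, hw1, hw2⟩ := hbr z hz
    exact ⟨w, hw1, hw2⟩)
  obtain ⟨t, ht⟩ := exists_tree hcomp
  obtain ⟨z, w, hw, hnw⟩ := CTree.exists_val_not_root (by omega : 4 ≤ n) t
  rw [ht z] at hw
  apply hnw
  rw [← hA z]
  exact hw

end Pool.Agent.Results.MP_8eda11_ag.NoComposition
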