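import Mathlib
import Pool.Agent.Helper51.LinMain

/-!
If the discriminant set of an entire algebraic function `F` on `ℂ^n`, `n > 4`, is contained in the
discriminant set `Σ_n` of the universal algebraic function `λ_n` and `F` has a joint branch with
`λ_n`, then `F` equals `λ_n`: there are no extra branches.
-/

namespace Pool.Agent.Results.MP_8eda11_ag.NoExtraBranches

open Polynomial

/-- The polynomial `P_z = λ^n + z_1 λ^(n-1) + ... + z_n`; here `z_(i+1)` is `z i`, `i : Fin n`. -/
noncomputable def lamPoly (n : ℕ) (z : Fin n → ℂ) : ℂ[X] :=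
  X ^ n + ∑ i : Fin n, C (z i) * X ^ (n - 1 - (i : ℕ))

/-- The values at `z` of the universal `n`-valued algebraic function `λ_n`: the roots of `P_z`. -/
def lamValues (n : ℕ) (z : Fin n → ℂ) : Set ℂ := {w | (lamPoly n z).IsRoot w}

/-- The discriminant set `Σ_n` of `λ_n`. -/
def lamDiscrSet (n : ℕ) : Set (Fin n → ℂ) := {z | (lamPoly n z).discr = 0}

/-- An entire algebraic function of `m` variables, given by its monic equation of positive
degree in one unknown over `ℂ[z_1, ..., z_m]`. -/
structure EntireAlg (m : ℕ) where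
  /-- the equation -/
  eqn : (MvPolynomial (Fin m) ℂ)[X]
  /-- the equation is monic -/
  monic : eqn.Monic
  /-- the degree is positive -/
  pos : 0 < eqn.natDegree

/-- The equation specialised at the point `z`. -/
noncomputable def EntireAlg.eqnAt {m : ℕ} (F : EntireAlg m) (z : Fin m → ℂ) : ℂ[X] :=
  F.eqn.map (MvPolynomial.eval z)

/-- The values at `z`: the roots of the equation. -/
def EntireAlg.values {m : ℕ} (F : EntireAlg m) (z : Fin m → ℂ) : Set ℂ :=
  {w | (F.eqnAt z).IsRoot w}

/-- The zero set of the discriminant of the equation. -/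
def EntireAlg.discrSet {m : ℕ} (F : EntireAlg m) : Set (Fin m → ℂ) :=
  {z | (F.eqnAt z).discr = 0}

/-- Two multivalued functions on `ℂ^n` have a common value at every point of some nonempty open
set. This is weaker than having a joint irreducible branch in some domain. -/
def HaveCommonBranch {n : ℕ} (F G : (Fin n → ℂ) → Set ℂ) : Prop :=
  ∃ U : Set (Fin n → ℂ), IsOpen U ∧ U.Nonempty ∧ ∀ z ∈ U, (F z ∩ G z).Nonempty

open Pool.Agent.Helper51.Lin in
/-- **Theorem.** Let `n > 4` and let `F` be an entire algebraic function on `ℂ^n` whose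
discriminant vanishes only on `Σ_n` and which has a joint branch with `λ_n`. Then the equation of
`F` is the equation of `λ_n`, so `F = λ_n` has no extra branches. -/
theorem result (n : ℕ) (hn : 4 < n) (F : EntireAlg n) (hdisc : F.discrSet ⊆ lamDiscrSet n)
    (hbr : HaveCommonBranch (lamValues n) F.values) :
    (∀ z, F.eqnAt z = lamPoly n z) ∧ ∀ z, F.values z = lamValues n z := by
  obtain ⟨U, hU, hUne, hbr⟩ := hbr
  have hnd : ∀ z : Fin n → ℂ, 0 < (univPoly n z).natDegree := by
    intro z
    rw [Pool.Agent.Helper69.LinA0.univPoly_natDegree]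
    omega
  have hFd : ∀ z : Fin n → ℂ, 0 < (spec F.eqn z).natDegree := by
    intro z
    rw [natDegree_spec F.monic]
    exact F.pos
  have hsep : ∀ z : Fin n → ℂ, (univPoly n z).Separable → (spec F.eqn z).Separable := by
    intro z hz
    by_contra hcon
    exact (discr_eq_zero_iff (hnd z)).1 (hdisc ((discr_eq_zero_iff (hFd z)).2 hcon)) hz
  have hA := spec_eq_univPoly_of_branch hn F.eqn F.monic hsep U hU hUne (fun z hz => by
    obtain ⟨w, hw1, hw2⟩ := hbr z hz
    exact ⟨w, hw1, hw2⟩)
  refine ⟨hA, fun z => ?_⟩
  unfold EntireAlg.values lamValues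
  rw [show F.eqnAt z = lamPoly n z from hA z]

end Pool.Agent.Results.MP_8eda11_ag.NoExtraBranches
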